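import Pool.Agent.H852R2.TE.Defs
import Pool.Agent.H265R2.DM.PAIRMIX

/-! Task MIXE: from the gap on the levels `1, …, r` to mixing on `r`-tuples (following the file
`PAIRMIX` of helper265). -/

namespace TE852
open RC14 RC852 DM852 DM852.PAIRMIX Finset Filter Equiv

namespace MIXEaux

variable {n r a : ℕ}

lemma T_upper (ha : 1 ≤ a) (hn : r + 2 ≤ n) (x : Fin a → Alt n) (c : ℝ)
    (hx : Good1 n r c x) (f : Tup r n → ℝ) (hf : ∑ p, f p = 0) :
    ∑ p, f p * T x f p ≤ (1 - c / (4 * a)) * ∑ p, f p ^ 2 := by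
  have h1 : ∀ p, f p * T x f p = (f p ^ 2 + f p * P x f p) / 2 := by
    intro p; unfold T; ring
  simp only [h1]
  rw [← Finset.sum_div, Finset.sum_add_distrib]
  have h2 := FRSCH n r a hn ha x c hx r (le_refl r) f hf
  have h3 : ∑ p, f p * P x f p ≤ (1 - c / (2 * a)) * ∑ p, f p ^ 2 := h2
  have h4 : c / (2 * a) = 2 * (c / (4 * a)) := by
    have ha' : (0 : ℝ) < a := by exact_mod_cast ha
    field_simp
    norm_num
  rw [h4] at h3
  linarith

lemma T_contr (ha : 1 ≤ a) (hn : r + 2 ≤ n) (x : Fin a → Alt n) (c : ℝ)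
    (hx : Good1 n r c x) (l : ℝ) (hc : 0 < l) (hl : 1 - c / (4 * a) ≤ l) (f : Tup r n → ℝ)
    (hf : ∑ p, f p = 0) :
    ∑ p, T x f p ^ 2 ≤ l ^ 2 * ∑ p, f p ^ 2 := by
  have hg : ∑ p, T x f p = 0 := by rw [T_sum ha, hf]
  have h1 : ∑ p, f p * T x f p ≤ l * ∑ p, f p ^ 2 :=
    (T_upper ha hn x c hx f hf).trans
      (mul_le_mul_of_nonneg_right hl (Finset.sum_nonneg fun p _ => sq_nonneg _))
  have h2 : ∑ p, T x f p * T x (T x f) p ≤ l * ∑ p, T x f p ^ 2 :=
    (T_upper ha hn x c hx (T x f) hg).trans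
      (mul_le_mul_of_nonneg_right hl (Finset.sum_nonneg fun p _ => sq_nonneg _))
  have h3 := T_nonneg ha x fun p => f p - l⁻¹ * T x f p
  rw [T_sub] at h3
  have e1 : ∑ p, (f p - l⁻¹ * T x f p) * (T x f p - l⁻¹ * T x (T x f) p) =
      ∑ p, f p * T x f p - l⁻¹ * ∑ p, f p * T x (T x f) p - l⁻¹ * ∑ p, T x f p ^ 2 +
        l⁻¹ ^ 2 * ∑ p, T x f p * T x (T x f) p := by
    rw [Finset.mul_sum, Finset.mul_sum, Finset.mul_sum, ← Finset.sum_sub_distrib,
      ← Finset.sum_sub_distrib, ← Finset.sum_add_distrib]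
    exact Finset.sum_congr rfl fun p _ => by ring
  have e2 : ∑ p, f p * T x (T x f) p = ∑ p, T x f p ^ 2 := by
    rw [T_symm x f (T x f)]
    exact Finset.sum_congr rfl fun p _ => by ring
  rw [e1, e2] at h3
  have h4 : l⁻¹ ^ 2 * ∑ p, T x f p * T x (T x f) p ≤ l⁻¹ ^ 2 * (l * ∑ p, T x f p ^ 2) :=
    mul_le_mul_of_nonneg_left h2 (by positivity)
  have h5 : l⁻¹ ^ 2 * (l * ∑ p, T x f p ^ 2) = l⁻¹ * ∑ p, T x f p ^ 2 := by
    field_simp
  have h6 : l⁻¹ * ∑ p, T x f p ^ 2 ≤ ∑ p, f p * T x f p := by linarith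
  have h7 : ∑ p, T x f p ^ 2 ≤ l * ∑ p, f p * T x f p := by
    have := mul_le_mul_of_nonneg_left h6 hc.le
    rwa [← mul_assoc, mul_inv_cancel₀ hc.ne', one_mul] at this
  calc ∑ p, T x f p ^ 2 ≤ l * ∑ p, f p * T x f p := h7
    _ ≤ l * (l * ∑ p, f p ^ 2) := mul_le_mul_of_nonneg_left h1 hc.le
    _ = l ^ 2 * ∑ p, f p ^ 2 := by ring

lemma T_iter (ha : 1 ≤ a) (hn : r + 2 ≤ n) (x : Fin a → Alt n) (c : ℝ)
    (hx : Good1 n r c x) (l : ℝ) (hc : 0 < l) (hl : 1 - c / (4 * a) ≤ l) (M : ℕ) :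
    ∀ (f : Tup r n → ℝ),
    ∑ p, f p = 0 → ∑ p, ((T x)^[M] f) p ^ 2 ≤ (l ^ M) ^ 2 * ∑ p, f p ^ 2 := by
  induction M with
  | zero => intro f _; simp
  | succ M ih =>
    intro f hf
    rw [Function.iterate_succ_apply]
    refine le_trans (ih (T x f) (by rw [T_sum ha, hf])) ?_
    have h1 := T_contr ha hn x c hx l hc hl f hf
    calc (l ^ M) ^ 2 * ∑ p, T x f p ^ 2 ≤
        (l ^ M) ^ 2 * (l ^ 2 * ∑ p, f p ^ 2) :=
          mul_le_mul_of_nonneg_left h1 (by positivity)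
      _ = _ := by rw [pow_succ]; ring

/-- mixing on tuples -/
lemma mixing (ha : 1 ≤ a) (hn : r + 2 ≤ n) (x : Fin a → Alt n) (c : ℝ)
    (hx : Good1 n r c x) (l : ℝ) (hc : 0 < l) (hl : 1 - c / (4 * a) ≤ l) (M : ℕ)
    (p q : Tup r n) :
    |(#{v : Fin M → Fin (a + a) × Bool | mv ((wrd (xl x) v : Alt n) : Perm (Fin n)) p = q} : ℝ) -
      (Fintype.card (Fin M → Fin (a + a) × Bool) : ℝ) / Fintype.card (Tup r n)| ≤
      l ^ M * Fintype.card (Fin M → Fin (a + a) × Bool) := by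
  classical
  have hN : (0 : ℝ) < Fintype.card (Tup r n) := by
    have : Nonempty (Tup r n) := ⟨p⟩
    exact_mod_cast Fintype.card_pos
  obtain ⟨N, hNe⟩ : ∃ N : ℝ, N = Fintype.card (Tup r n) := ⟨_, rfl⟩
  rw [← hNe] at hN ⊢
  have hK : (Fintype.card (Fin M → Fin (a + a) × Bool) : ℝ) = (2 * (a + a)) ^ M := by
    simp [mul_comm]
  have hK0 : (0 : ℝ) ≤ (2 * (a + a)) ^ M := by positivity
  set f : Tup r n → ℝ := fun u => (if u = q then 1 else 0) - 1 / N with hf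
  have hf0 : ∑ u, f u = 0 := by
    rw [hf, Finset.sum_sub_distrib, Finset.sum_ite_eq' Finset.univ q, if_pos (Finset.mem_univ q),
      Finset.sum_const, Finset.card_univ, nsmul_eq_mul, ← hNe]
    field_simp
    norm_num
  have hf2 : ∑ u, f u ^ 2 ≤ 1 := by
    have e1 : ∀ u, f u ^ 2 = (if u = q then 1 - 2 / N else 0) + 1 / N ^ 2 := by
      intro u
      simp only [hf]
      split_ifs
      · field_simp; ring
      · field_simp; ring
    simp only [e1]
    rw [Finset.sum_add_distrib, Finset.sum_ite_eq' Finset.univ q, if_pos (Finset.mem_univ q),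
      Finset.sum_const, Finset.card_univ, nsmul_eq_mul, ← hNe]
    have e2 : 1 - 2 / N + N * (1 / N ^ 2) = 1 - 1 / N := by field_simp; ring
    rw [e2]
    have : 0 < 1 / N := by positivity
    linarith
  have h1 := words ha x M f p
  have h2 : ∑ v : Fin M → Fin (a + a) × Bool, f (mv ((wrd (xl x) v : Alt n) : Perm (Fin n)) p) =
      (#{v : Fin M → Fin (a + a) × Bool | mv ((wrd (xl x) v : Alt n) : Perm (Fin n)) p = q} : ℝ) -
      (Fintype.card (Fin M → Fin (a + a) × Bool) : ℝ) / N := by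
    simp only [hf]
    rw [Finset.sum_sub_distrib, Finset.sum_boole, Finset.sum_const, Finset.card_univ,
      nsmul_eq_mul]
    ring
  rw [← h2, h1, hK, abs_mul, abs_of_nonneg hK0, mul_comm]
  apply mul_le_mul_of_nonneg_right _ hK0
  have h3 := T_iter ha hn x c hx l hc hl M f hf0
  have h4 : ((T x)^[M] f) p ^ 2 ≤ ∑ u, ((T x)^[M] f) u ^ 2 :=
    Finset.single_le_sum (f := fun u => ((T x)^[M] f) u ^ 2) (fun u _ => sq_nonneg _)
      (Finset.mem_univ p)
  have h5 : ((T x)^[M] f) p ^ 2 ≤ (l ^ M) ^ 2 := by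
    refine le_trans (le_trans h4 h3) ?_
    have : (l ^ M) ^ 2 * ∑ p, f p ^ 2 ≤ (l ^ M) ^ 2 * 1 :=
      mul_le_mul_of_nonneg_left hf2 (by positivity)
    linarith
  exact abs_le_of_sq_le_sq h5 (by positivity)

end MIXEaux

open MIXEaux in
/-- from the gap on the levels `1, …, r` to mixing on `r`-tuples -/
theorem MIXE (n r a : ℕ) (hn : r + 2 ≤ n) (ha : 1 ≤ a) (c : ℝ) (hc : 0 < c) (x : Fin a → Alt n)
    (hx : Good1 n r c x) (M : ℕ) (hM : 2 * a * (r * Real.log n) / c ≤ M) :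
    MixT r (gx (lz x) M) := by
  intro y z
  have ha' : (0 : ℝ) < a := by exact_mod_cast ha
  have hn0 : (0 : ℝ) < n := by
    have : 0 < n := by omega
    exact_mod_cast this
  obtain ⟨N, hNe⟩ : ∃ N : ℝ, N = Fintype.card (Tup r n) := ⟨_, rfl⟩
  have hN : 0 < N := by
    rw [hNe]
    exact_mod_cast card_Tup_pos (by omega : r ≤ n)
  have hNn : N ≤ (n : ℝ) ^ r := by
    rw [hNe]; exact_mod_cast card_Tup_le r n
  have h1 := mixing ha hn x c hx (Real.exp (-(c / (4 * a)))) (Real.exp_pos _)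
    (by have := Real.add_one_le_exp (-(c / (4 * a))); linarith) (2 * M) y z
  rw [← hNe] at h1
  rw [← hNe]
  set K : ℝ := ((Fintype.card (Fin (2 * M) → Fin (a + a) × Bool) : ℕ) : ℝ) with hK
  have hK0 : 0 ≤ K := by rw [hK]; positivity
  have h2 : Real.exp (-(c / (4 * a))) ^ (2 * M) ≤ 1 / N := by
    rw [← Real.exp_nat_mul]
    calc Real.exp (((2 * M : ℕ) : ℝ) * -(c / (4 * a)))
        ≤ Real.exp (-(r * Real.log n)) := by
          apply Real.exp_le_exp.2
          rw [div_le_iff₀ hc] at hM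
          push_cast
          have e : 2 * (M : ℝ) * -(c / (4 * a)) = -((M * c) / (2 * a)) := by
            field_simp; ring
          rw [e, neg_le_neg_iff, le_div_iff₀ (by positivity)]
          linarith
      _ = 1 / (n : ℝ) ^ r := by
          rw [Real.exp_neg, Real.exp_nat_mul, Real.exp_log hn0, one_div]
      _ ≤ 1 / N := one_div_le_one_div_of_le hN hNn
  have h3 := (abs_le.1 h1).2
  have h4 : Real.exp (-(c / (4 * a))) ^ (2 * M) * K ≤ 1 / N * K :=
    mul_le_mul_of_nonneg_right h2 hK0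
  have h5 : (#{v : Fin (2 * M) → Fin (a + a) × Bool |
      mv ((wrd (xl x) v : Alt n) : Perm (Fin n)) y = z} : ℝ) ≤ 2 * K / N := by
    have e : 2 * K / N = 1 / N * K + K / N := by ring
    rw [e]
    linarith
  have h6 : (#{v : Fin (2 * M) → Fin (a + a) × Bool |
      mv ((wrd (xl x) v : Alt n) : Perm (Fin n)) y = z} : ℝ) * N ≤ 2 * K := by
    rwa [le_div_iff₀ hN] at h5
  exact h6

end TE852
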